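import Pool.Agent.Mg.F9c82b4.Gedc8e0

open Pool.Agent.MP_c6cf52_lc Pool.Agent.MP_9c82b4_lc

theorem Pool.Agent.Results.MP_9c82b4_lc.TukeyTopNwd.result :
    ∃ (M : Type 2) (E : M → M → Prop), IsZFC E ∧ ∃ w : M, IsOmega E w ∧
      (∀ p, IsUltra E w p → IsTop E w p) ∧ ∃ p, IsUltra E w p ∧ IsNwd E w p :=
  Pool.Agent.MP_9c82b4_lc.main
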